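import Pool.Agent.T9h29.NA.Iface

/-!
# Counting words by weight and inner product (labels of MP_954e53_ag.NegativeAnswer)
-/

namespace Pool.Agent.T9h19.NA

open Finset

/-- Table: number of words of weight `w` with inner product `v` with the list `l`. -/
def T : List (ZMod 3) → ℕ → ZMod 3 → ℕ
  | [], w, v => if w = 0 ∧ v = 0 then 1 else 0
  | _ :: l, 0, v => T l 0 v
  | a :: l, w + 1, v => T l (w + 1) v + (T l w (v - a) + T l w (v + a))

theorem T_neg (a : ZMod 3) (l : List (ZMod 3)) (w : ℕ) (v : ZMod 3) :
    T (-a :: l) w v = T (a :: l) w v := by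
  cases w with
  | zero => rfl
  | succ w => simp only [T, sub_neg_eq_add, ← sub_eq_add_neg]; ring

theorem T_perm {l l' : List (ZMod 3)} (h : l.Perm l') : T l = T l' := by
  induction h with
  | nil => rfl
  | cons a _ ih =>
    funext w v
    cases w with
    | zero => simp only [T, ih]
    | succ w => simp only [T, ih]
  | swap a b l =>
    funext w v
    rcases w with _ | _ | w
    · simp only [T]
    · simp only [T]; ring
    · simp only [T]
      have e1 : v - b - a = v - a - b := by ring
      have e2 : v - b + a = v + a - b := by ring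
      have e3 : v + b - a = v - a + b := by ring
      have e4 : v + b + a = v + a + b := by ring
      rw [e1, e2, e3, e4]; ring
  | trans _ _ ih1 ih2 => rw [ih1, ih2]

theorem T_map_sq (l : List (ZMod 3)) : T (l.map fun a => a * a) = T l := by
  induction l with
  | nil => rfl
  | cons a l ih =>
    rw [List.map_cons]
    have h : a * a = a ∨ a * a = -a := by revert a; decide
    rcases h with h | h
    · rw [h]
      funext w v
      cases w with
      | zero => simp only [T, ih]
      | succ w => simp only [T, ih]
    · rw [h]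
      funext w v
      rw [T_neg]
      cases w with
      | zero => simp only [T, ih]
      | succ w => simp only [T, ih]

/-- Number of words of weight `w` with inner product `v` with `x`. -/
def cnt (n : ℕ) (x : Fin n → ZMod 3) (w : ℕ) (v : ZMod 3) : ℕ :=
  ∑ u : Fin n → ZMod 3,
    if (∑ j, (if u j ≠ 0 then 1 else 0) : ℕ) = w ∧ ∑ j, x j * u j = v then 1 else 0

theorem cnt_eq (n : ℕ) (x : Fin n → ZMod 3) (w : ℕ) (v : ZMod 3) :
    cnt n x w v = T (List.ofFn x) w v := by
  induction n generalizing w v with
  | zero =>
    unfold cnt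
    rw [Fintype.sum_unique]
    simp only [List.ofFn_zero, T, Finset.univ_eq_empty, Finset.sum_empty]
    refine if_congr ?_ rfl rfl
    constructor
    · rintro ⟨h1, h2⟩; exact ⟨h1.symm, h2.symm⟩
    · rintro ⟨h1, h2⟩; exact ⟨h1.symm, h2.symm⟩
  | succ n ih =>
    have key : ∀ (F : (Fin (n+1) → ZMod 3) → ℕ), ∑ u, F u =
        ∑ a : ZMod 3, ∑ u : Fin n → ZMod 3, F (Fin.cons a u) := by
      intro F
      rw [← (Fin.consEquiv (fun _ => ZMod 3)).sum_comp, Fintype.sum_prod_type]
      rfl
    unfold cnt
    rw [key]
    simp only [Fin.sum_univ_succ, Fin.cons_zero, Fin.cons_succ]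
    rw [List.ofFn_succ]
    have hsum : ∀ G : ZMod 3 → ℕ, ∑ a : ZMod 3, G a = G 0 + (G 1 + G 2) := by
      intro G
      have : (univ : Finset (ZMod 3)) = {0, 1, 2} := by decide
      rw [this, Finset.sum_insert (by decide), Finset.sum_insert (by decide),
        Finset.sum_singleton]
    rw [hsum]
    have h0 : (∑ u : Fin n → ZMod 3, if ((if (0:ZMod 3) ≠ 0 then 1 else 0) +
        ∑ j, (if u j ≠ 0 then 1 else 0) : ℕ) = w ∧ x 0 * 0 + ∑ j : Fin n, x j.succ * u j = v
        then 1 else 0) = cnt n (fun j => x j.succ) w v := by
      unfold cnt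
      refine Finset.sum_congr rfl fun u _ => if_congr ?_ rfl rfl
      simp
    rw [h0, ih]
    have h1 : ∀ a : ZMod 3, a ≠ 0 → (∑ u : Fin n → ZMod 3, if ((if a ≠ 0 then 1 else 0) +
        ∑ j, (if u j ≠ 0 then 1 else 0) : ℕ) = w ∧ x 0 * a + ∑ j : Fin n, x j.succ * u j = v
        then 1 else 0) = if w = 0 then 0 else cnt n (fun j => x j.succ) (w - 1) (v - x 0 * a) := by
      intro a ha
      cases w with
      | zero =>
        rw [if_pos rfl]
        refine Finset.sum_eq_zero fun u _ => ?_
        rw [if_neg]
        rintro ⟨h, _⟩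
        rw [if_pos ha] at h
        omega
      | succ w =>
        rw [if_neg (Nat.succ_ne_zero w)]
        unfold cnt
        refine Finset.sum_congr rfl fun u _ => if_congr ?_ rfl rfl
        rw [if_pos ha]
        constructor
        · rintro ⟨h2, h3⟩
          exact ⟨by omega, by rw [← h3]; ring⟩
        · rintro ⟨h2, h3⟩
          exact ⟨by omega, by rw [h3]; ring⟩
    rw [h1 1 (by decide), h1 2 (by decide)]
    cases w with
    | zero => simp only [T, if_true, add_zero]
    | succ w =>
      rw [if_neg (Nat.succ_ne_zero w), if_neg (Nat.succ_ne_zero w), ih, ih]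
      simp only [T, Nat.add_sub_cancel]
      have e1 : v - x 0 * 1 = v - x 0 := by ring
      have e2 : v - x 0 * 2 = v + x 0 := by
        have : (2 : ZMod 3) = -1 := by decide
        rw [this]; ring
      rw [e1, e2]

/-- The canonical list with `a` ones and `5 - a` zeros. -/
def canon (a : ℕ) : List (ZMod 3) := List.replicate a 1 ++ List.replicate (5 - a) 0

theorem sq_perm (l : List (ZMod 3)) : (l.map fun a => a * a).Perm
    (List.replicate (l.countP fun a => decide (a ≠ 0)) 1 ++
      List.replicate (l.length - l.countP fun a => decide (a ≠ 0)) 0) := by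
  induction l with
  | nil => simp
  | cons a l ih =>
    have hle : (l.countP fun a => decide (a ≠ 0)) ≤ l.length := List.countP_le_length
    by_cases ha : a = 0
    · subst ha
      rw [List.map_cons, List.countP_cons_of_neg (by simp), List.length_cons,
        Nat.succ_sub hle, List.replicate_succ]
      refine (List.Perm.cons _ ih).trans ?_
      rw [mul_zero]
      exact List.perm_middle.symm
    · rw [List.map_cons, List.countP_cons_of_pos (by simpa using ha), List.length_cons,
        Nat.succ_sub_succ, List.replicate_succ]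
      have : a * a = 1 := by revert a; decide
      rw [this]
      exact List.Perm.cons _ ih

theorem T_ofFn (x : Fin 5 → ZMod 3) :
    T (List.ofFn x) = T (canon ((List.ofFn x).countP fun a => decide (a ≠ 0))) := by
  rw [← T_map_sq, T_perm (sq_perm _), List.length_ofFn]
  rfl

theorem countP_ofFn : ∀ (n : ℕ) (x : Fin n → ZMod 3),
    ((List.ofFn x).countP fun a => decide (a ≠ 0)) = ∑ j, (if x j ≠ 0 then 1 else 0)
  | 0, x => by simp
  | n+1, x => by
    rw [List.ofFn_succ, List.countP_cons, countP_ofFn n, Fin.sum_univ_succ]
    rw [add_comm]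
    congr 1
    simp

end Pool.Agent.T9h19.NA
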