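import Pool.Agent.T9h19.NA.Stab

/-!
# No exponent of weight zero and degree one in every block
-/

namespace Pool.Agent.T9h19.NA

open Finset Pool.Agent.T9h29.NA

theorem exists_of_sum_one {α : Type*} [Fintype α] [DecidableEq α] (m : α → ℕ)
    (h : ∑ c, m c = 1) : ∃ c, m c = 1 ∧ ∀ c', c' ≠ c → m c' = 0 := by
  have h0 : ∃ c ∈ (univ : Finset α), m c ≠ 0 := by
    by_contra hcon
    push Not at hcon
    rw [Finset.sum_eq_zero hcon] at h
    exact absurd h (by omega)
  obtain ⟨c, _, hc⟩ := h0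
  have h1 := Finset.add_sum_erase univ m (Finset.mem_univ c)
  rw [h] at h1
  have h2 : m c = 1 ∧ ∑ x ∈ univ.erase c, m x = 0 := by omega
  refine ⟨c, h2.1, fun c' hc' => ?_⟩
  exact (Finset.sum_eq_zero_iff.1 h2.2) c' (Finset.mem_erase.2 ⟨hc', Finset.mem_univ _⟩)

theorem wgt_single {m : Var Crd →₀ ℕ} (c : ∀ b, Crd b) (h1 : ∀ b, m ⟨b, c b⟩ = 1)
    (h0 : ∀ b, ∀ c', c' ≠ c b → m ⟨b, c'⟩ = 0) : wgt wG m = ∑ b, wG ⟨b, c b⟩ := by
  unfold wgt
  rw [Fintype.sum_sigma]
  refine Finset.sum_congr rfl fun b _ => ?_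
  rw [Finset.sum_eq_single (c b)]
  · rw [h1, one_smul]
  · intro c' _ hc'
    rw [h0 b c' hc', zero_smul]
  · intro h; exact absurd (Finset.mem_univ _) h

theorem code_zero (i : Fin 4) : code 0 i = 0 := by
  revert i; decide

/-- no weight `0` exponent of degree one -/
theorem good_one : Good wG 1 = ∅ := by
  rw [Set.eq_empty_iff_forall_notMem]
  rintro m ⟨hb, hw0⟩
  choose c hc1 hc0 using fun b => exists_of_sum_one (fun c => m ⟨b, c⟩) (hb b)
  rw [wgt_single c hc1 hc0] at hw0
  have hg : ∀ g : Gam, ∑ b, chi g ⟨b, c b⟩ = 0 := by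
    intro g
    have := congrFun hw0 g
    rw [Finset.sum_apply] at this
    exact this
  obtain ⟨U, t, U', hU⟩ : ∃ (U : Fin 4 → Fin 5 → ZMod 3) (t : Fin 4 → ZMod 3)
      (U' : Fin 4 → Fin 5 → ZMod 3), ∀ g : Gam, ∑ i, (chiPart (g.1 i) g.2.2 (U' i) +
      chiLeaf (g.1 i) (code g.2.1 i) g.2.2 (U i, t i)) = 0 := by
    refine ⟨fun i => (show Leaf from c (i, false)).1.1, fun i => (show Leaf from c (i, false)).1.2,
      fun i => (show Part from c (i, true)).1, fun g => ?_⟩
    have := hg g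
    rw [Fintype.sum_prod_type] at this
    refine (Finset.sum_congr rfl fun i _ => ?_).trans this
    rw [Fintype.sum_bool]
    rfl
  have hUU : U = U' := by
    funext i j
    have h := hU (Pi.single i (Pi.single j 1), 0, 0)
    rw [Finset.sum_eq_single i] at h
    · simp only [chiPart, chiLeaf, Pi.single_eq_same, code_zero, zero_mul, add_zero,
        sub_zero] at h
      have e : ∀ u : Fin 5 → ZMod 3, ∑ k, (Pi.single j 1 : Fin 5 → ZMod 3) k * u k = u j := by
        intro u
        rw [Finset.sum_eq_single j]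
        · rw [Pi.single_eq_same, one_mul]
        · intro k _ hk; rw [Pi.single_eq_of_ne hk, zero_mul]
        · intro hk; exact absurd (Finset.mem_univ _) hk
      rw [e, e] at h
      linear_combination h
    · intro k _ hk
      simp only [chiPart, chiLeaf, Pi.single_eq_of_ne hk, code_zero, zero_mul, add_zero,
        sub_zero, Pi.zero_apply, Finset.sum_const_zero, neg_zero]
    · intro hk; exact absurd (Finset.mem_univ _) hk
  subst hUU
  have h1 : ∀ (s : ZMod 3 × ZMod 3) (y : ZMod 3),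
      ∑ i, (code s i * t i + y * (t i ^ 2 - 1)) = 0 := by
    intro s y
    have h := hU (0, s, y)
    refine (Finset.sum_congr rfl fun i _ => ?_).trans h
    simp only [chiPart, chiLeaf, Pi.zero_apply, zero_mul, Finset.sum_const_zero]
    ring
  have ha := h1 (1, 0) 0
  have hb' := h1 (0, 1) 0
  have hc' := h1 0 1
  rw [Fin.sum_univ_four] at ha hb' hc'
  simp only [code] at ha hb' hc'
  generalize t 0 = t0 at ha hb' hc'
  generalize t 1 = t1 at ha hb' hc'
  generalize t 2 = t2 at ha hb' hc'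
  generalize t 3 = t3 at ha hb' hc'
  revert t0 t1 t2 t3
  decide

end Pool.Agent.T9h19.NA
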