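import Pool.Agent.T9h19.NA.Count

/-!
# The labels of MP_954e53_ag.NegativeAnswer: class sizes, characters, stabilisers
-/

namespace Pool.Agent.T9h19.NA

open Finset Pool.Agent.T9h29.NA

/-- The values of `T (canon a) w v`. -/
def tb (a w : ℕ) (v : ZMod 3) : ℕ :=
  ((([[[1,0,0],[10,0,0],[40,0,0],[80,0,0],[80,0,0],[32,0,0]],
    [[1,0,0],[8,1,1],[24,8,8],[32,24,24],[16,32,32],[0,16,16]],
    [[1,0,0],[6,2,2],[14,13,13],[20,30,30],[24,28,28],[16,8,8]],
    [[1,0,0],[4,3,3],[10,15,15],[26,27,27],[32,24,24],[8,12,12]],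
    [[1,0,0],[2,4,4],[12,14,14],[32,24,24],[22,29,29],[12,10,10]],
    [[1,0,0],[0,5,5],[20,10,10],[20,30,30],[30,25,25],[10,11,11]]] :
      List (List (List ℕ))).getD a []).getD w []).getD v.val 0

theorem T_canon : ∀ a : Fin 6, ∀ w : Fin 6, ∀ v : ZMod 3, T (canon a) w v = tb a w v := by
  decide +kernel

theorem hw_eq (u : W) : hw u = ∑ j, (if u j ≠ 0 then 1 else 0) := by
  unfold hw
  rw [Finset.card_filter]

theorem hw_lt (u : W) : hw u < 6 := by
  have : hw u ≤ (univ : Finset (Fin 5)).card := Finset.card_filter_le _ _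
  rw [Finset.card_univ, Fintype.card_fin] at this
  omega

theorem cnt_tb (x : W) (w : ℕ) (hw' : w < 6) (v : ZMod 3) :
    cnt 5 x w v = tb (hw x) w v := by
  rw [cnt_eq, T_ofFn, countP_ofFn, ← hw_eq]
  exact T_canon ⟨hw x, hw_lt x⟩ ⟨w, hw'⟩ v

/-- Sums over all words of a function of the weight and the inner product. -/
theorem sum_hw (x : W) (F : ℕ → ZMod 3 → ℕ) :
    ∑ u : W, F (hw u) (∑ j, x j * u j) = ∑ w ∈ range 6, ∑ v : ZMod 3, tb (hw x) w v * F w v := by
  have h1 : ∀ u : W, F (hw u) (∑ j, x j * u j) = ∑ w ∈ range 6, ∑ v : ZMod 3,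
      (if (∑ j, (if u j ≠ 0 then 1 else 0) : ℕ) = w ∧ ∑ j, x j * u j = v then 1 else 0) *
        F w v := by
    intro u
    rw [Finset.sum_eq_single (hw u), Finset.sum_eq_single (∑ j, x j * u j)]
    · rw [← hw_eq, if_pos ⟨rfl, rfl⟩, one_mul]
    · intro v _ hv
      rw [if_neg, zero_mul]
      rintro ⟨_, h⟩
      exact hv h.symm
    · intro h; exact absurd (Finset.mem_univ _) h
    · intro w _ hw'
      refine Finset.sum_eq_zero fun v _ => ?_
      rw [if_neg, zero_mul]
      rintro ⟨h, _⟩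
      rw [← hw_eq] at h
      exact hw' h.symm
    · intro h
      exact absurd (Finset.mem_range.2 (hw_lt u)) h
  rw [Finset.sum_congr rfl fun u _ => h1 u, Finset.sum_comm]
  refine Finset.sum_congr rfl fun w hw' => ?_
  rw [Finset.sum_comm]
  refine Finset.sum_congr rfl fun v _ => ?_
  rw [← Finset.sum_mul, ← cnt_tb x w (Finset.mem_range.1 hw') v]
  rfl

/-- Multiplicity in a leaf block as a function of `t` and the weight. -/
def lm (t : ZMod 3) (w : ℕ) : ℕ :=
  if w = 0 then (if t = 0 then 12 else 11) else if w = 1 then 1 else if w = 2 then 2 else 0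

/-- Multiplicity in a partner block as a function of the weight. -/
def pm (w : ℕ) : ℕ := if w = 0 then 32 else if w = 2 then 6 else if w = 3 then 1 else 0

/-- Class sizes in a leaf block. -/
def tabL (a : ℕ) (s y v : ZMod 3) : ℕ :=
  ∑ t : ZMod 3, ∑ w ∈ range 6, ∑ z : ZMod 3, tb a w z *
    (lm t w * if z + s * t + y * ((w : ZMod 3) + t ^ 2 - 1) = v then 1 else 0)

/-- Class sizes in a partner block. -/
def tabP (a : ℕ) (y v : ZMod 3) : ℕ :=
  ∑ w ∈ range 6, ∑ z : ZMod 3, tb a w z * (pm w * if -z - y * (w : ZMod 3) = v then 1 else 0)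

theorem card_leaf (P : W × ZMod 3 → Prop) [DecidablePred P] :
    (univ.filter fun c : Leaf => P c.1).card =
      ∑ t : ZMod 3, ∑ u : W, lm t (hw u) * if P (u, t) then 1 else 0 := by
  rw [Finset.card_filter, Fintype.sum_sigma, Fintype.sum_prod_type_right]
  refine Finset.sum_congr rfl fun t _ => Finset.sum_congr rfl fun u _ => ?_
  change (∑ _y : Fin (leafMult (u, t)), (if P (u, t) then 1 else 0)) = _
  rw [Finset.sum_const, Finset.card_univ, Fintype.card_fin, smul_eq_mul]
  rfl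

theorem card_part (P : W → Prop) [DecidablePred P] :
    (univ.filter fun c : Part => P c.1).card = ∑ u : W, pm (hw u) * if P u then 1 else 0 := by
  rw [Finset.card_filter, Fintype.sum_sigma]
  refine Finset.sum_congr rfl fun u _ => ?_
  change (∑ _y : Fin (partMult u), (if P u then 1 else 0)) = _
  rw [Finset.sum_const, Finset.card_univ, Fintype.card_fin, smul_eq_mul]
  rfl

theorem leaf_class (x : W) (s y v : ZMod 3) :
    (univ.filter fun c : Leaf => chiLeaf x s y c.1 = v).card = tabL (hw x) s y v := by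
  rw [card_leaf (fun p => chiLeaf x s y p = v)]
  unfold tabL
  refine Finset.sum_congr rfl fun t _ => ?_
  exact sum_hw x fun w z => lm t w * if z + s * t + y * ((w : ZMod 3) + t ^ 2 - 1) = v
    then 1 else 0

theorem part_class (x : W) (y v : ZMod 3) :
    (univ.filter fun c : Part => chiPart x y c.1 = v).card = tabP (hw x) y v := by
  rw [card_part (fun p => chiPart x y p = v)]
  exact sum_hw x fun w z => pm w * if -z - y * (w : ZMod 3) = v then 1 else 0

/-- The heavy value in a leaf block. -/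
def HL (a : ℕ) (s y : ZMod 3) : ZMod 3 :=
  y * ((if a = 2 ∨ a = 3 ∨ a = 4 then 1 else 0) - 1 - s ^ 2)

/-- The heavy value in a partner block. -/
def HP (a : ℕ) (y : ZMod 3) : ZMod 3 :=
  y * (1 - (if a = 2 ∨ a = 3 ∨ a = 4 then 1 else 0))

theorem tabL_facts : ∀ a : Fin 6, ∀ s y : ZMod 3,
    (∀ v, 101 < tabL a s y v → v = HL a s y) ∧
    (∀ v, tabL a s y v = 304 ∨ tabL a s y v ≤ 202) ∧
    (tabL a s y 0 + tabL a s y 1 + tabL a s y 2 = 304) ∧
    ((tabL a s y 1 : ZMod 3) + (tabL a s y 2 : ZMod 3) * 2 = 0) := by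
  decide +kernel

theorem tabP_facts : ∀ a : Fin 6, ∀ y : ZMod 3,
    (∀ v, 117 < tabP a y v → v = HP a y) ∧
    (∀ v, tabP a y v = 352 ∨ tabP a y v ≤ 250) ∧
    (tabP a y 0 + tabP a y 1 + tabP a y 2 = 352) ∧
    ((tabP a y 1 : ZMod 3) + (tabP a y 2 : ZMod 3) * 2 = 0) := by
  decide +kernel

end Pool.Agent.T9h19.NA
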