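import Pool.Agent.T9h19.NA.Labels

/-!
# The labels of MP_954e53_ag.NegativeAnswer: the statements (6) of the specification
-/

namespace Pool.Agent.T9h19.NA

open Finset Pool.Agent.T9h29.NA

theorem univ_three : (univ : Finset (ZMod 3)) = {0, 1, 2} := by decide

theorem sum_three {M : Type*} [AddCommMonoid M] (G : ZMod 3 → M) :
    ∑ a : ZMod 3, G a = G 0 + (G 1 + G 2) := by
  rw [univ_three, Finset.sum_insert (by decide), Finset.sum_insert (by decide),
    Finset.sum_singleton]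

theorem card_by_class {α : Type*} [Fintype α] (f : α → ZMod 3) :
    Fintype.card α = (univ.filter fun c => f c = 0).card + (univ.filter fun c => f c = 1).card +
      (univ.filter fun c => f c = 2).card := by
  have h := Finset.card_eq_sum_card_fiberwise (s := (univ : Finset α)) (t := univ) (f := f)
    (fun _ _ => Finset.mem_coe.2 (Finset.mem_univ _))
  rw [Finset.card_univ, sum_three] at h
  rw [h, add_assoc]

theorem sum_by_class {α : Type*} [Fintype α] (f : α → ZMod 3) :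
    ∑ c, f c = ((univ.filter fun c => f c = 1).card : ZMod 3) +
      ((univ.filter fun c => f c = 2).card : ZMod 3) * 2 := by
  have h : ∑ c, f c = ∑ v : ZMod 3, ∑ c ∈ univ.filter (fun c => f c = v), f c :=
    (Finset.sum_fiberwise univ f f).symm
  rw [h, sum_three]
  have h2 : ∀ v : ZMod 3, ∑ c ∈ univ.filter (fun c => f c = v), f c =
      ((univ.filter fun c => f c = v).card : ZMod 3) * v := by
    intro v
    rw [Finset.sum_congr rfl (fun c hc => (Finset.mem_filter.1 hc).2), Finset.sum_const,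
      nsmul_eq_mul]
  rw [h2, h2, h2, mul_zero, zero_add, mul_one]

/-- Class sizes of the block `b`. -/
def tabB (g : Gam) (b : Blk) (v : ZMod 3) : ℕ :=
  bif b.2 then tabP (hw (g.1 b.1)) g.2.2 v else tabL (hw (g.1 b.1)) (code g.2.1 b.1) g.2.2 v

/-- Heavy value of the block `b`. -/
def HB (g : Gam) (b : Blk) : ZMod 3 :=
  bif b.2 then HP (hw (g.1 b.1)) g.2.2 else HL (hw (g.1 b.1)) (code g.2.1 b.1) g.2.2

theorem cls (g : Gam) (b : Blk) (v : ZMod 3) :
    (univ.filter fun c : Crd b => chi g ⟨b, c⟩ = v).card = tabB g b v := by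
  rcases b with ⟨i, b⟩
  cases b with
  | false => exact leaf_class (g.1 i) (code g.2.1 i) g.2.2 v
  | true => exact part_class (g.1 i) g.2.2 v

theorem tabB_facts (g : Gam) (b : Blk) :
    (∀ v, rk b < tabB g b v → v = HB g b) ∧
    (∀ v, tabB g b v = 3 * rk b + 1 ∨ tabB g b v + 102 ≤ 3 * rk b + 1) ∧
    (tabB g b 0 + tabB g b 1 + tabB g b 2 = 3 * rk b + 1) ∧
    ((tabB g b 1 : ZMod 3) + (tabB g b 2 : ZMod 3) * 2 = 0) := by
  rcases b with ⟨i, b⟩
  cases b with
  | false =>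
    obtain ⟨h1, h2, h3, h4⟩ := tabL_facts ⟨_, hw_lt (g.1 i)⟩ (code g.2.1 i) g.2.2
    refine ⟨h1, fun v => ?_, h3, h4⟩
    have := h2 v
    change tabL (hw (g.1 i)) (code g.2.1 i) g.2.2 v = 304 ∨
      tabL (hw (g.1 i)) (code g.2.1 i) g.2.2 v + 102 ≤ 304
    change tabL (hw (g.1 i)) (code g.2.1 i) g.2.2 v = 304 ∨
      tabL (hw (g.1 i)) (code g.2.1 i) g.2.2 v ≤ 202 at this
    omega
  | true =>
    obtain ⟨h1, h2, h3, h4⟩ := tabP_facts ⟨_, hw_lt (g.1 i)⟩ g.2.2
    refine ⟨h1, fun v => ?_, h3, h4⟩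
    have := h2 v
    change tabP (hw (g.1 i)) g.2.2 v = 352 ∨ tabP (hw (g.1 i)) g.2.2 v + 102 ≤ 352
    change tabP (hw (g.1 i)) g.2.2 v = 352 ∨ tabP (hw (g.1 i)) g.2.2 v ≤ 250 at this
    omega

theorem card_Crd (b : Blk) : Fintype.card (Crd b) = 3 * rk b + 1 := by
  rw [card_by_class fun c : Crd b => chi 0 ⟨b, c⟩, cls, cls, cls]
  exact (tabB_facts 0 b).2.2.1

/-- canonical characters are trivial -/
theorem sum_chi (g : Gam) (b : Blk) : ∑ c : Crd b, chi g ⟨b, c⟩ = 0 := by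
  rw [sum_by_class fun c : Crd b => chi g ⟨b, c⟩, cls, cls]
  exact (tabB_facts g b).2.2.2

theorem wG_three (v : Var Crd) : 3 • wG v = 0 := by
  funext g
  have h : ∀ z : ZMod 3, 3 • z = 0 := by decide
  exact h _

/-- fixed loci have codimension `≥ 2` (102 in fact) -/
theorem codim (g : Gam) (b : Blk) (l : ZMod 3) (h : ∃ c : Crd b, chi g ⟨b, c⟩ ≠ l) :
    102 ≤ (Finset.univ.filter fun c : Crd b => chi g ⟨b, c⟩ ≠ l).card := by
  have h1 : (univ.filter fun c : Crd b => chi g ⟨b, c⟩ = l).card +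
      (univ.filter fun c : Crd b => ¬ chi g ⟨b, c⟩ = l).card = Fintype.card (Crd b) := by
    rw [← Finset.card_univ]
    exact Finset.card_filter_add_card_filter_not (s := (univ : Finset (Crd b)))
      (fun c : Crd b => chi g ⟨b, c⟩ = l)
  have h2 : 0 < (univ.filter fun c : Crd b => ¬ chi g ⟨b, c⟩ = l).card := by
    obtain ⟨c, hc⟩ := h
    exact Finset.card_pos.2 ⟨c, Finset.mem_filter.2 ⟨Finset.mem_univ _, hc⟩⟩
  rw [card_Crd, cls] at h1
  change 102 ≤ (univ.filter fun c : Crd b => ¬ chi g ⟨b, c⟩ = l).card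
  have h3 := (tabB_facts g b).2.1 l
  omega

theorem heavy (g : Gam) (b : Blk) (l : ZMod 3) (T : Finset (Crd b))
    (hT : rk b < T.card) (h : ∀ c ∈ T, chi g ⟨b, c⟩ = l) : l = HB g b := by
  have h1 : T.card ≤ (univ.filter fun c : Crd b => chi g ⟨b, c⟩ = l).card :=
    Finset.card_le_card fun c hc => Finset.mem_filter.2 ⟨Finset.mem_univ _, h c hc⟩
  rw [cls] at h1
  exact (tabB_facts g b).1 l (lt_of_lt_of_le hT h1)

/-- stabilisers act trivially on the fibres of `O(1,…,1)` -/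
theorem stab (g : Gam) (l : Blk → ZMod 3) (T : ∀ b, Finset (Crd b))
    (hT : ∀ b, rk b < (T b).card) (h : ∀ b, ∀ c ∈ T b, chi g ⟨b, c⟩ = l b) : ∑ b, l b = 0 := by
  have h1 : ∑ b, l b = ∑ i : Fin 4, - (g.2.2 * code g.2.1 i ^ 2) := by
    rw [Finset.sum_congr rfl fun b _ => heavy g b _ (T b) (hT b) (h b), Fintype.sum_prod_type]
    refine Finset.sum_congr rfl fun i _ => ?_
    rw [Fintype.sum_bool]
    simp only [HB, cond_true, cond_false, HL, HP]
    ring
  rw [h1, Fin.sum_univ_four]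
  unfold code
  generalize g.2.2 = y
  generalize g.2.1.1 = p
  generalize g.2.1.2 = q
  revert y p q
  decide

end Pool.Agent.T9h19.NA
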