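import Pool.Agent.T9h19.NA.GoodOne

/-!
# Exponents of weight zero supported on large sets
-/

namespace Pool.Agent.T9h19.NA

open Finset Pool.Agent.T9h29.NA

theorem chi_add (g g' : Gam) (v : Var Crd) : chi (g + g') v = chi g v + chi g' v := by
  obtain ⟨⟨i, b⟩, c⟩ := v
  cases b with
  | false =>
    change chiLeaf ((g + g').1 i) (code (g + g').2.1 i) (g + g').2.2 _ =
      chiLeaf (g.1 i) (code g.2.1 i) g.2.2 _ + chiLeaf (g'.1 i) (code g'.2.1 i) g'.2.2 _
    have hc : code (g + g').2.1 i = code g.2.1 i + code g'.2.1 i := by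
      fin_cases i <;> simp [code] <;> ring
    rw [hc]
    simp only [chiLeaf, Prod.fst_add, Prod.snd_add, Pi.add_apply, add_mul, Finset.sum_add_distrib]
    ring
  | true =>
    change chiPart ((g + g').1 i) (g + g').2.2 _ =
      chiPart (g.1 i) g.2.2 _ + chiPart (g'.1 i) g'.2.2 _
    simp only [chiPart, Prod.fst_add, Prod.snd_add, Pi.add_apply, add_mul, Finset.sum_add_distrib]
    ring

theorem chi_smul (a : ZMod 3) (g : Gam) (v : Var Crd) : chi (a • g) v = a * chi g v := by
  obtain ⟨⟨i, b⟩, c⟩ := v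
  cases b with
  | false =>
    change chiLeaf ((a • g).1 i) (code (a • g).2.1 i) (a • g).2.2 _ =
      a * chiLeaf (g.1 i) (code g.2.1 i) g.2.2 _
    have hc : code (a • g).2.1 i = a * code g.2.1 i := by
      fin_cases i <;> simp [code] <;> ring
    rw [hc]
    simp only [chiLeaf, Prod.smul_fst, Prod.smul_snd, Pi.smul_apply, smul_eq_mul, mul_assoc,
      ← Finset.mul_sum]
    ring
  | true =>
    change chiPart ((a • g).1 i) (a • g).2.2 _ = a * chiPart (g.1 i) g.2.2 _
    simp only [chiPart, Prod.smul_fst, Prod.smul_snd, Pi.smul_apply, smul_eq_mul, mul_assoc,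
      ← Finset.mul_sum]
    ring

/-- `g ↦ chi g v` as a linear form. -/
def chiL (v : Var Crd) : Gam →ₗ[ZMod 3] ZMod 3 where
  toFun g := chi g v
  map_add' g g' := chi_add g g' v
  map_smul' a g := chi_smul a g v

theorem lin_apply {κ : Type} [Fintype κ] [DecidableEq κ]
    (f : (κ → ZMod 3) →ₗ[ZMod 3] ZMod 3) (a : κ → ZMod 3) :
    f a = ∑ k, a k * f (Pi.single k 1) := by
  rw [LinearMap.pi_apply_eq_sum_univ f a]
  refine Finset.sum_congr rfl fun b _ => ?_
  rw [smul_eq_mul]
  have e : (fun j => if b = j then (1 : ZMod 3) else 0) = Pi.single b 1 := by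
    funext j
    by_cases hj : b = j
    · subst hj; rw [if_pos rfl, Pi.single_eq_same]
    · rw [if_neg hj, Pi.single_eq_of_ne (Ne.symm hj)]
  rw [e]

/-- The solution over `F_3`. -/
theorem sol_F3 (n : ZMod 3) (T : ∀ b, Finset (Crd b)) (hT : ∀ b, rk b < (T b).card) :
    ∃ m : Var Crd → ZMod 3, (∀ v, v.2 ∉ T v.1 → m v = 0) ∧ (∀ b, ∑ c, m ⟨b, c⟩ = n) ∧
      ∀ g, ∑ v, m v * chi g v = 0 := by
  classical
  set φ : Var Crd → (Blk → ZMod 3) × (Gam → ZMod 3) := fun v =>
    if v.2 ∈ T v.1 then (Pi.single v.1 1, wG v) else 0 with hφ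
  have key : ((fun _ => n, 0) : (Blk → ZMod 3) × (Gam → ZMod 3)) ∈
      Submodule.span (ZMod 3) (Set.range φ) := by
    by_contra hcon
    obtain ⟨f, hf1, hf2⟩ := Submodule.exists_le_ker_of_notMem hcon
    have hf0 : ∀ v, f (φ v) = 0 := fun v =>
      hf2 (Submodule.subset_span ⟨v, rfl⟩)
    set α : Blk → ZMod 3 := fun b => f (Pi.single b 1, 0) with hα
    set β : Gam → ZMod 3 := fun g => f (0, Pi.single g 1) with hβ
    have hfa : ∀ a : Blk → ZMod 3, f (a, 0) = ∑ b, a b * α b := fun a =>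
      lin_apply (f.comp (LinearMap.inl (ZMod 3) (Blk → ZMod 3) (Gam → ZMod 3))) a
    have hfb : ∀ a : Gam → ZMod 3, f (0, a) = ∑ g, a g * β g := fun a =>
      lin_apply (f.comp (LinearMap.inr (ZMod 3) (Blk → ZMod 3) (Gam → ZMod 3))) a
    have hγ : ∀ v, chi (∑ g, β g • g) v = ∑ g, chi g v * β g := by
      intro v
      have h := map_sum (chiL v) (fun g => β g • g) univ
      refine h.trans (Finset.sum_congr rfl fun g _ => ?_)
      rw [map_smul, smul_eq_mul, mul_comm]
      rfl
    have hst := stab (∑ g, β g • g) (fun b => - α b) T hT (by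
      intro b c hc
      have h0 : φ ⟨b, c⟩ = (Pi.single b 1, wG ⟨b, c⟩) := if_pos hc
      have h1 := hf0 ⟨b, c⟩
      rw [h0] at h1
      have h2 : ((Pi.single b 1, wG ⟨b, c⟩) : (Blk → ZMod 3) × (Gam → ZMod 3)) =
          (Pi.single b 1, 0) + (0, wG ⟨b, c⟩) := by
        rw [Prod.mk_add_mk, add_zero, zero_add]
      rw [h2, map_add, hfb] at h1
      rw [hγ]
      have h3 : f (Pi.single b 1, 0) = α b := rfl
      rw [h3] at h1
      have h4 : ∀ g, wG ⟨b, c⟩ g = chi g ⟨b, c⟩ := fun g => rfl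
      simp only [h4] at h1
      linear_combination h1)
    rw [Finset.sum_neg_distrib, neg_eq_zero] at hst
    apply hf1
    rw [hfa, ← Finset.mul_sum, hst, mul_zero]
  rw [Submodule.mem_span_range_iff_exists_fun] at key
  obtain ⟨c, hc⟩ := key
  refine ⟨fun v => if v.2 ∈ T v.1 then c v else 0, fun v hv => if_neg hv, fun b => ?_,
    fun g => ?_⟩
  · have h := congrFun (congrArg Prod.fst hc) b
    simp only [Prod.fst_sum, Finset.sum_apply, Prod.smul_fst, Pi.smul_apply] at h
    rw [← h, Fintype.sum_sigma, Finset.sum_eq_single b]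
    · refine Finset.sum_congr rfl fun x _ => ?_
      by_cases hx : x ∈ T b
      · simp only [hφ, if_pos hx, Pi.single_eq_same, smul_eq_mul, mul_one]
      · simp only [hφ, if_neg hx, Prod.fst_zero, Pi.zero_apply, smul_zero]
    · intro b' _ hb'
      refine Finset.sum_eq_zero fun x _ => ?_
      by_cases hx : x ∈ T b'
      · simp only [hφ, if_pos hx, Pi.single_eq_of_ne (Ne.symm hb'), smul_zero]
      · simp only [hφ, if_neg hx, Prod.fst_zero, Pi.zero_apply, smul_zero]
    · intro hb; exact absurd (Finset.mem_univ _) hb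
  · have h := congrFun (congrArg Prod.snd hc) g
    simp only [Prod.snd_sum, Finset.sum_apply, Prod.smul_snd, Pi.smul_apply] at h
    rw [Pi.zero_apply] at h
    refine (Finset.sum_congr rfl fun v _ => ?_).trans h
    by_cases hx : v.2 ∈ T v.1
    · simp only [hφ, if_pos hx, smul_eq_mul]
      rfl
    · simp only [hφ, if_neg hx, Prod.snd_zero, Pi.zero_apply, smul_zero, zero_mul]

theorem supported_aux (n : ℕ) (hn : 704 ≤ n) (T : ∀ b, Finset (Crd b))
    (hT : ∀ b, rk b < (T b).card) :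
    ∃ m ∈ Good wG n, ∀ v : Var Crd, m v ≠ 0 → v.2 ∈ T v.1 := by
  classical
  obtain ⟨m, hm0, hm1, hm2⟩ := sol_F3 (n : ZMod 3) T hT
  have hne : ∀ b, ∃ c, c ∈ T b := fun b => by
    have : 0 < (T b).card := lt_of_le_of_lt (Nat.zero_le _) (hT b)
    exact Finset.card_pos.1 this
  choose c0 hc0 using hne
  set S : Blk → ℕ := fun b => ∑ c, (m ⟨b, c⟩).val with hS
  have hSle : ∀ b, S b ≤ n := by
    intro b
    have h1 : S b ≤ ∑ _c : Crd b, 2 := Finset.sum_le_sum fun c _ => by
      have := ZMod.val_lt (m ⟨b, c⟩)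
      omega
    rw [Finset.sum_const, Finset.card_univ, card_Crd, smul_eq_mul] at h1
    have h2 : rk b ≤ 117 := by
      obtain ⟨i, b⟩ := b
      cases b
      · change 101 ≤ 117; omega
      · change 117 ≤ 117; omega
    omega
  have hScast : ∀ b, ((n - S b : ℕ) : ZMod 3) = 0 := by
    intro b
    rw [Nat.cast_sub (hSle b), sub_eq_zero, hS]
    simp only
    rw [Nat.cast_sum, ← hm1 b]
    refine Finset.sum_congr rfl fun c _ => ?_
    rw [ZMod.natCast_val, ZMod.cast_id', id]
  set f : Var Crd → ℕ := fun v => (m v).val + if v.2 = c0 v.1 then n - S v.1 else 0 with hf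
  have hfc : ∀ v, (f v : ZMod 3) = m v := by
    intro v
    rw [hf]
    simp only
    rw [Nat.cast_add, ZMod.natCast_val, ZMod.cast_id', id]
    by_cases h : v.2 = c0 v.1
    · rw [if_pos h, hScast, add_zero]
    · rw [if_neg h, Nat.cast_zero, add_zero]
  refine ⟨Finsupp.equivFunOnFinite.symm f, ⟨fun b => ?_, ?_⟩, fun v hv => ?_⟩
  · change ∑ c, f ⟨b, c⟩ = n
    have h1 : ∑ c, f ⟨b, c⟩ = S b + ∑ c, if c = c0 b then n - S b else 0 := by
      rw [hS, ← Finset.sum_add_distrib]
    rw [h1, Finset.sum_ite_eq' univ (c0 b), if_pos (Finset.mem_univ _)]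
    have := hSle b
    omega
  · funext g
    change (∑ v, f v • wG v) g = 0
    rw [Finset.sum_apply, ← hm2 g]
    refine Finset.sum_congr rfl fun v _ => ?_
    rw [Pi.smul_apply, nsmul_eq_mul, hfc]
    rfl
  · by_contra hcon
    apply hv
    change (m v).val + (if v.2 = c0 v.1 then n - S v.1 else 0) = 0
    have h1 : ¬ v.2 = c0 v.1 := by
      intro h
      apply hcon
      rw [h]
      exact hc0 v.1
    rw [hm0 v hcon, if_neg h1, ZMod.val_zero]

/-- exponents of weight `0` supported on large sets, for all large `n` -/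
theorem supported : ∃ n0, ∀ n, n0 ≤ n → ∀ T : ∀ b, Finset (Crd b), (∀ b, rk b < (T b).card) →
    ∃ m ∈ Good wG n, ∀ v : Var Crd, m v ≠ 0 → v.2 ∈ T v.1 :=
  ⟨704, fun n hn T hT => supported_aux n hn T hT⟩

end Pool.Agent.T9h19.NA
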